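import Pool.Agent.U422.CubeNum

/-!
# Orthogonal arrays of index one closed under weak near unanimity operations

Let `R` be the set of rows of an orthogonal array of index one and strength `t ≥ 2` with `m ≥ t`
columns and `n ≥ 2` symbols. Suppose that `R` is closed under the componentwise application of
**some** (arbitrary) idempotent weak near unanimity operations `w_1, …, w_m` of one arity `s ≥ 2` on
the `n` symbols, one for each column. By a theorem of Maróti and McKenzie such operations exist as
soon as `R` is closed under any idempotent operations satisfying Taylor identities.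

**Theorem.** `m ≤ q + t - 1`, where `q` is the least of the prime powers `p ^ α` which exactly divide
`n`. (Bush's bound for all arrays is `m ≤ n + t - 1`.) In particular there are at most `t + 1`
columns if `n` is twice an odd number.

Idea of the proof. Fixing `t - 2` columns at one symbol one obtains a closed array of strength two:
a set of mutually orthogonal latin squares. Such sets are homomorphic over an abelian group of order
`n`, and its Sylow subgroups give the bound.
-/

set_option autoImplicit false

namespace Pool.Agent.Results.MP_159373_co.ClosedArrays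

open Finset Function Pool.Agent.H430R2.PermCubes Pool.Agent.Y347.VL Pool.Agent.Y347.AG
  Pool.Agent.U422.Cube

/-- `R` is the set of rows of an orthogonal array of index one and strength `t` with `m` columns and
`n` symbols: for all `t` columns and all prescribed entries in them there is exactly one row. -/
def IsOA1 (m n t : ℕ) (R : Set (Fin m → Fin n)) : Prop :=
  ∀ T : Finset (Fin m), #T = t → ∀ y : Fin m → Fin n, ∃! r, r ∈ R ∧ ∀ i ∈ T, r i = y i

/-- `R` is closed under some weak near unanimity operations of one arity `s ≥ 2`. -/
def WNURows {m n : ℕ} (R : Set (Fin m → Fin n)) : Prop :=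
  ∃ (s : ℕ) (w : Fin m → (Fin s → Fin n) → Fin n), 2 ≤ s ∧ (∀ i, IsWNU (w i)) ∧
    ∀ x : Fin s → Fin m → Fin n, (∀ l, x l ∈ R) → (fun i => w i fun l => x l i) ∈ R

/-- **Theorem.** An orthogonal array of index one and strength `t ≥ 2` with `m ≥ t` columns and
`n ≥ 2` symbols which is closed under weak near unanimity operations has at most
`p ^ α + t - 1` columns, for every prime divisor `p` of `n` and the largest power `p ^ α` dividing
`n`. -/
theorem result (m n t : ℕ) (hn : 2 ≤ n) (ht : 2 ≤ t) (htm : t ≤ m) (R : Set (Fin m → Fin n))
    (hR : IsOA1 m n t R) (hw : WNURows R) (p : ℕ) (hp : p.Prime) (hpn : p ∣ n) :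
    m + 1 ≤ p ^ n.factorization p + t := by
  classical
  obtain ⟨q, hq⟩ := exists_syl hn
  have hqp : q ≤ p ^ n.factorization p := hq.2 ⟨p, hp, hpn, rfl⟩
  have hq2 : 2 ≤ q := hq.two_le (by omega)
  obtain ⟨s, w, hs, hwnu, hcl⟩ := hw
  rcases Nat.eq_zero_or_pos (m - t) with hk0 | hk
  · omega
  let o : Fin n := ⟨0, by omega⟩
  let c0 : Fin m := ⟨0, by omega⟩
  let c1 : Fin m := ⟨1, by omega⟩
  let T0 : Finset (Fin m) := univ.filter fun i => i.val < t
  have hT0 : #T0 = t := by
    have : T0 = (univ : Finset (Fin t)).map (Fin.castLEEmb htm) := by
      ext i
      simp only [T0, mem_filter, mem_univ, true_and, mem_map, Fin.castLEEmb_apply]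
      constructor
      · intro h
        exact ⟨⟨i.val, h⟩, by ext; simp⟩
      · rintro ⟨a, rfl⟩
        simp
    rw [this, card_map, card_univ, Fintype.card_fin]
  let y : (Fin 2 → Fin n) → Fin m → Fin n := fun x i =>
    if i.val = 0 then x 0 else if i.val = 1 then x 1 else o
  choose row hrowR hrow using fun x => (hR T0 hT0 (y x)).exists
  have huni : ∀ r r' : Fin m → Fin n, r ∈ R → r' ∈ R → ∀ S : Finset (Fin m), #S = t →
      (∀ i ∈ S, r i = r' i) → r = r' := by
    intro r r' hr hr' S hS h
    exact (hR S hS r').unique ⟨hr, h⟩ ⟨hr', fun _ _ => rfl⟩
  have hc0 : c0 ∈ T0 := by simp [T0, c0]; omega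
  have hc1 : c1 ∈ T0 := by simp [T0, c1]; omega
  have h01 : c1 ≠ c0 := by
    intro h
    have := congrArg Fin.val h
    simp [c0, c1] at this
  have hr0 : ∀ x, row x c0 = x 0 := by
    intro x
    rw [hrow x c0 hc0]
    simp [y, c0]
  have hr1 : ∀ x, row x c1 = x 1 := by
    intro x
    rw [hrow x c1 hc1]
    simp [y, c1]
  have hr2 : ∀ x, ∀ i ∈ T0, i ≠ c0 → i ≠ c1 → row x i = o := by
    intro x i hi h0 h1
    rw [hrow x i hi]
    have e0 : i.val ≠ 0 := fun h => h0 (Fin.ext h)
    have e1 : i.val ≠ 1 := fun h => h1 (Fin.ext h)
    simp [y, e0, e1]
  let d : Fin (m - t) → Fin m := fun j => ⟨t + j.val, by omega⟩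
  have hd : ∀ j, d j ∉ T0 := by
    intro j
    simp [T0, d]
  have hdinj : ∀ i j, d i = d j → i = j := by
    intro i j h
    have := congrArg Fin.val h
    simp only [d] at this
    exact Fin.ext (by omega)
  let C : Fin (m - t) → (Fin 2 → Fin n) → Fin n := fun j x => row x (d j)
  have hC : IsVariationalSet 2 n (m - t) C := by
    constructor
    · intro j i x
      refine Finite.injective_iff_bijective.1 ?_
      intro z z' hzz
      have hzz' : row (update x i z) (d j) = row (update x i z') (d j) := hzz
      have hrows : ∀ c c' : Fin m, c ∈ T0 → (∀ v ∈ T0, v ≠ c →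
          row (update x i z) v = row (update x i z') v) →
          row (update x i z) = row (update x i z') := by
        intro c _ hc hv
        refine huni _ _ (hrowR _) (hrowR _) (insert (d j) (T0.erase c)) ?_ ?_
        · rw [card_insert_of_notMem, card_erase_of_mem hc, hT0]
          · omega
          · intro h
            exact hd j (mem_of_mem_erase h)
        · intro v hv'
          rcases mem_insert.1 hv' with rfl | h
          · exact hzz'
          · exact hv v (mem_of_mem_erase h) (ne_of_mem_erase h)
      fin_cases i
      · have h := hrows c0 c0 hc0 (fun v hv hv0 => by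
          by_cases h1 : v = c1
          · subst h1
            rw [hr1, hr1]
            simp
          · rw [hr2 _ v hv hv0 h1, hr2 _ v hv hv0 h1])
        have h' := congrFun h c0
        rw [hr0, hr0] at h'
        simpa using h'
      · have h := hrows c1 c1 hc1 (fun v hv hv1 => by
          by_cases h0 : v = c0
          · subst h0
            rw [hr0, hr0]
            simp
          · rw [hr2 _ v hv h0 hv1, hr2 _ v hv h0 hv1])
        have h' := congrFun h c1
        rw [hr1, hr1] at h'
        simpa using h'
    · intro e he
      refine Finite.injective_iff_bijective.1 ?_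
      intro x x' hxx
      have h0 : row x (d (e 0)) = row x' (d (e 0)) := congrFun hxx 0
      have h1 : row x (d (e 1)) = row x' (d (e 1)) := congrFun hxx 1
      have hne : d (e 0) ≠ d (e 1) := by
        intro h
        have := he (hdinj _ _ h)
        simp at this
      have hr : row x = row x' := by
        refine huni _ _ (hrowR _) (hrowR _)
          (insert (d (e 0)) (insert (d (e 1)) ((T0.erase c0).erase c1))) ?_ ?_
        · rw [card_insert_of_notMem, card_insert_of_notMem,
            card_erase_of_mem (mem_erase.2 ⟨h01, hc1⟩), card_erase_of_mem hc0, hT0]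
          · omega
          · intro h
            exact hd _ (mem_of_mem_erase (mem_of_mem_erase h))
          · intro h
            rcases mem_insert.1 h with h | h
            · exact hne h
            · exact hd _ (mem_of_mem_erase (mem_of_mem_erase h))
        · intro v hv
          rcases mem_insert.1 hv with rfl | hv
          · exact h0
          rcases mem_insert.1 hv with rfl | hv
          · exact h1
          have g1 := ne_of_mem_erase hv
          have g2 := ne_of_mem_erase (mem_of_mem_erase hv)
          have g3 := mem_of_mem_erase (mem_of_mem_erase hv)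
          rw [hr2 _ v g3 g2 g1, hr2 _ v g3 g2 g1]
      have e0 := congrFun hr c0
      have e1 := congrFun hr c1
      rw [hr0, hr0] at e0
      rw [hr1, hr1] at e1
      funext i
      fin_cases i
      · exact e0
      · exact e1
  let a : Fin 2 → (Fin s → Fin n) → Fin n := fun i => if i = 0 then w c0 else w c1
  have hclC : Closed C a (fun j => w (d j)) := by
    intro j x
    have hmem := hcl (fun l => row (x l)) (fun l => hrowR _)
    have heq : row (fun i => a i fun l => x l i) = fun i => w i fun l => row (x l) i := by
      refine huni _ _ (hrowR _) hmem T0 hT0 ?_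
      intro v hv
      by_cases h0 : v = c0
      · subst h0
        rw [hr0]
        simp only [hr0]
        simp [a]
      by_cases h1 : v = c1
      · subst h1
        rw [hr1]
        simp only [hr1]
        simp [a]
      rw [hr2 _ v hv h0 h1]
      have : (fun l => row (x l) v) = fun _ => o := by
        funext l
        exact hr2 _ v hv h0 h1
      rw [this, (hwnu v).1]
    exact congrFun heq (d j)
  have ha : ∀ i, IsWNU (a i) := by
    intro i
    by_cases h : i = 0
    · simp only [a, h, if_true]
      exact hwnu c0
    · simp only [a, h, if_false]
      exact hwnu c1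
  have hne : Nonempty (Fin n) := ⟨o⟩
  obtain ⟨G, inst, hG, hhom⟩ := hom_of_homOver
    (wnu_hom hs le_rfl hk hC.1 hclC ha (fun j => hwnu (d j)))
  have hfin := hom_le le_rfl hn hq (Or.inl rfl) hG ⟨C, hC, hhom⟩
  have hval : value 2 q = q - 1 := by simp [value]
  omega

end Pool.Agent.Results.MP_159373_co.ClosedArrays
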